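import Mathlib

/-!
# MP_8cb698_co: the middle-gap measure on permutations is positively associated
-/

set_option autoImplicit false

namespace Pool.Agent.Results.MP_8cb698_co.MiddleGapPA

open Equiv Finset

/-- A strong up-set: closed under exchanging the two entries of an inversion. The permutation `a`
is the tuple `(a 0, …, a (n-1))`, and `a.symm i` is the position of the entry `i`. -/
def StrongUpSet {n : ℕ} (A : Finset (Perm (Fin n))) : Prop :=
  ∀ a ∈ A, ∀ i j : Fin n, i < j → a.symm j < a.symm i → swap i j * a ∈ A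

/-- The number of entries carried across the middle gap (positions and entries are numbered from
`0` here, hence the shift by one). -/
def gap {n : ℕ} (a : Perm (Fin n)) : ℕ :=
  #{k : Fin n | 2 * (k.val + 1) ≤ n ∧ n < 2 * ((a k).val + 1)}

/-- The middle-gap measure with parameter `q`. -/
noncomputable def gapMeasure {n : ℕ} (q : ℝ) (A : Finset (Perm (Fin n))) : ℝ :=
  (∑ a ∈ A, q ^ gap a) / ∑ b : Perm (Fin n), q ^ gap b

/-! ### Positive association for a weight and a relation -/

/-- Positive association of the weight `μ` for nonnegative functions that are monotone with respect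
to the relation `R`. -/
def PA {X : Type*} [Fintype X] (μ : X → ℝ) (R : X → X → Prop) : Prop :=
  ∀ f g : X → ℝ, (∀ x, 0 ≤ f x) → (∀ x, 0 ≤ g x) → (∀ x y, R x y → f x ≤ f y) →
    (∀ x y, R x y → g x ≤ g y) →
    (∑ x, μ x * f x) * (∑ x, μ x * g x) ≤ (∑ x, μ x) * ∑ x, μ x * (f x * g x)

theorem PA.prod {X Y : Type*} [Fintype X] [Fintype Y] {μ : X → ℝ} {ν : Y → ℝ}
    {R : X → X → Prop} {S : Y → Y → Prop} (hμ : ∀ x, 0 ≤ μ x) (hν : ∀ y, 0 ≤ ν y)
    (hX : PA μ R) (hY : PA ν S) :
    PA (fun z : X × Y => μ z.1 * ν z.2)
      (fun z w => (R z.1 w.1 ∧ z.2 = w.2) ∨ (z.1 = w.1 ∧ S z.2 w.2)) := by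
  intro f g hf hg hfm hgm
  have e1 : ∀ h : X × Y → ℝ, ∑ z : X × Y, (μ z.1 * ν z.2) * h z =
      ∑ x, μ x * ∑ y, ν y * h (x, y) := by
    intro h
    rw [Fintype.sum_prod_type]
    refine Finset.sum_congr rfl fun x _ => ?_
    rw [Finset.mul_sum]
    exact Finset.sum_congr rfl fun y _ => by ring
  have e2 : ∑ z : X × Y, (μ z.1 * ν z.2) = (∑ x, μ x) * ∑ y, ν y := by
    rw [Fintype.sum_prod_type, Finset.sum_mul]
    refine Finset.sum_congr rfl fun x _ => ?_
    rw [Finset.mul_sum]
  have h1 := hX (fun x => ∑ y, ν y * f (x, y)) (fun x => ∑ y, ν y * g (x, y))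
    (fun x => Finset.sum_nonneg fun y _ => mul_nonneg (hν y) (hf _))
    (fun x => Finset.sum_nonneg fun y _ => mul_nonneg (hν y) (hg _))
    (fun x x' h => Finset.sum_le_sum fun y _ =>
      mul_le_mul_of_nonneg_left (hfm _ _ (Or.inl ⟨h, rfl⟩)) (hν y))
    (fun x x' h => Finset.sum_le_sum fun y _ =>
      mul_le_mul_of_nonneg_left (hgm _ _ (Or.inl ⟨h, rfl⟩)) (hν y))
  have h2 : ∀ x, (∑ y, ν y * f (x, y)) * (∑ y, ν y * g (x, y)) ≤
      (∑ y, ν y) * ∑ y, ν y * (f (x, y) * g (x, y)) := fun x =>
    hY (fun y => f (x, y)) (fun y => g (x, y)) (fun y => hf _) (fun y => hg _)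
      (fun y y' h => hfm _ _ (Or.inr ⟨rfl, h⟩)) (fun y y' h => hgm _ _ (Or.inr ⟨rfl, h⟩))
  rw [e1 f, e1 g, e2]
  have e3 := e1 (fun z => f z * g z)
  rw [e3]
  refine h1.trans ?_
  rw [mul_assoc]
  refine mul_le_mul_of_nonneg_left ?_ (Finset.sum_nonneg fun x _ => hμ x)
  rw [Finset.mul_sum]
  refine Finset.sum_le_sum fun x _ => ?_
  calc μ x * ((∑ y, ν y * f (x, y)) * ∑ y, ν y * g (x, y))
      ≤ μ x * ((∑ y, ν y) * ∑ y, ν y * (f (x, y) * g (x, y))) :=
        mul_le_mul_of_nonneg_left (h2 x) (hμ x)
    _ = _ := by ring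

theorem PA.map {X Y : Type*} [Fintype X] [Fintype Y] {μ : X → ℝ} {ν : Y → ℝ}
    {R : X → X → Prop} {S : Y → Y → Prop} (e : X ≃ Y) (hw : ∀ x, ν (e x) = μ x)
    (hR : ∀ x y, R x y → S (e x) (e y)) (hX : PA μ R) : PA ν S := by
  intro f g hf hg hfm hgm
  have h := hX (fun x => f (e x)) (fun x => g (e x)) (fun x => hf _) (fun x => hg _)
    (fun x y hxy => hfm _ _ (hR _ _ hxy)) (fun x y hxy => hgm _ _ (hR _ _ hxy))
  have e1 : ∀ h : Y → ℝ, ∑ x, μ x * h (e x) = ∑ y, ν y * h y := by
    intro h
    rw [← Equiv.sum_comp e]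
    exact Finset.sum_congr rfl fun x _ => by rw [hw]
  have e2 : ∑ x, μ x = ∑ y, ν y := by
    rw [← Equiv.sum_comp e]
    exact Finset.sum_congr rfl fun x _ => by rw [hw]
  rw [e1 f, e1 g, e1 (fun y => f y * g y), e2] at h
  exact h

/-- FKG, as a statement about `PA`. -/
theorem PA.ofLattice {X : Type*} [Fintype X] [DistribLattice X] {μ : X → ℝ} {R : X → X → Prop}
    (hμ : ∀ x, 0 ≤ μ x) (hmod : ∀ x y, μ x * μ y ≤ μ (x ⊓ y) * μ (x ⊔ y))
    (hR : ∀ f : X → ℝ, (∀ x y, R x y → f x ≤ f y) → Monotone f) : PA μ R := by
  intro f g hf hg hfm hgm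
  exact fkg f g μ hμ hf hg (hR f hfm) (hR g hgm) hmod

/-! ### The uniform measure -/

/-- `b` is obtained from `a` by exchanging two entries which form no inversion of `a`. -/
def Step {n : ℕ} (a b : Perm (Fin n)) : Prop :=
  ∃ p q : Fin n, p < q ∧ a p < a q ∧ b = swap (a p) (a q) * a

/-- Insert the entry `p` in front. -/
def cons {n : ℕ} (p : Fin (n + 1)) (e : Perm (Fin n)) : Perm (Fin (n + 1)) :=
  (finSuccEquiv' 0).trans ((optionCongr e).trans (finSuccEquiv' p).symm)

theorem cons_zero {n : ℕ} (p : Fin (n + 1)) (e : Perm (Fin n)) : cons p e 0 = p := by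
  simp [cons]

theorem cons_succ {n : ℕ} (p : Fin (n + 1)) (e : Perm (Fin n)) (i : Fin n) :
    cons p e i.succ = p.succAbove (e i) := by
  have : (finSuccEquiv' (0 : Fin (n + 1))) i.succ = some i := by
    rw [← Fin.zero_succAbove]
    exact finSuccEquiv'_succAbove _ _
  simp [cons, this]

theorem cons_bij (n : ℕ) :
    Function.Bijective (fun z : Fin (n + 1) × Perm (Fin n) => cons z.1 z.2) := by
  rw [Fintype.bijective_iff_injective_and_card]
  constructor
  · rintro ⟨p, e⟩ ⟨p', e'⟩ h
    simp only at h
    have hp : p = p' := by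
      rw [← cons_zero p e, h, cons_zero]
    subst hp
    have he : e = e' := by
      ext i
      have : cons p e i.succ = cons p e' i.succ := by rw [h]
      rw [cons_succ, cons_succ] at this
      rw [Fin.succAbove_right_injective this]
    rw [he]
  · simp [Fintype.card_perm, Nat.factorial_succ]

theorem step_cons_left {n : ℕ} (p : Fin n) (e : Perm (Fin n)) :
    Step (cons p.castSucc e) (cons p.succ e) := by
  refine ⟨0, (e.symm p).succ, Fin.succ_pos _, ?_, ?_⟩
  · rw [cons_zero, cons_succ]
    simp
  · rw [cons_zero, cons_succ]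
    simp only [apply_symm_apply, Fin.succAbove_castSucc_self]
    ext1 i
    refine Fin.cases ?_ (fun i => ?_) i
    · rw [Perm.mul_apply, cons_zero, cons_zero, swap_apply_left]
    · rw [Perm.mul_apply, cons_succ, cons_succ]
      rcases lt_trichotomy (e i) p with h | h | h
      · rw [Fin.succAbove_castSucc_of_lt _ _ h,
          Fin.succAbove_of_castSucc_lt _ _ (by
            rw [Fin.lt_def] at h ⊢; simp; omega)]
        rw [swap_apply_of_ne_of_ne]
        · rw [Ne, Fin.ext_iff]; rw [Fin.lt_def] at h; simp; omega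
        · rw [Ne, Fin.ext_iff]; rw [Fin.lt_def] at h; simp; omega
      · rw [h]; simp
      · rw [Fin.succAbove_castSucc_of_le _ _ h.le,
          Fin.succAbove_of_le_castSucc _ _ (by
            rw [Fin.lt_def] at h; rw [Fin.le_def]; simp; omega)]
        rw [swap_apply_of_ne_of_ne]
        · rw [Ne, Fin.ext_iff]; rw [Fin.lt_def] at h; simp; omega
        · rw [Ne, Fin.ext_iff]; rw [Fin.lt_def] at h; simp; omega

theorem step_cons_right {n : ℕ} (p : Fin (n + 1)) (e e' : Perm (Fin n)) (h : Step e e') :
    Step (cons p e) (cons p e') := by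
  obtain ⟨x, y, hxy, hlt, rfl⟩ := h
  refine ⟨x.succ, y.succ, Fin.succ_lt_succ_iff.2 hxy, ?_, ?_⟩
  · rw [cons_succ, cons_succ]
    exact Fin.strictMono_succAbove p hlt
  · ext1 i
    rw [cons_succ, cons_succ]
    refine Fin.cases ?_ (fun i => ?_) i
    · rw [Perm.mul_apply, cons_zero, cons_zero, swap_apply_of_ne_of_ne]
      · exact (Fin.succAbove_ne _ _).symm
      · exact (Fin.succAbove_ne _ _).symm
    · rw [Perm.mul_apply, cons_succ, cons_succ, Perm.mul_apply]
      exact (Fin.succAbove_right_injective.swap_apply _ _ _).symm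

theorem PA_fin (n : ℕ) : PA (fun _ : Fin (n + 1) => (1 : ℝ))
    (fun x y => ∃ i : Fin n, x = i.castSucc ∧ y = i.succ) := by
  refine PA.ofLattice (fun _ => zero_le_one) (fun _ _ => le_rfl) ?_
  intro f hf
  rw [Fin.monotone_iff_le_succ]
  intro i
  exact hf _ _ ⟨i, rfl, rfl⟩

/-- The uniform measure is positively associated. -/
theorem PA_uniform (n : ℕ) : PA (fun _ : Perm (Fin n) => (1 : ℝ)) Step := by
  induction n with
  | zero =>
    intro f g _ _ _ _
    simp
  | succ n ih =>
    refine PA.map (Equiv.ofBijective _ (cons_bij n)) (fun _ => ?_) ?_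
      (PA.prod (fun _ => zero_le_one) (fun _ => zero_le_one) (PA_fin n) ih)
    · simp
    · rintro ⟨p, e⟩ ⟨p', e'⟩ (⟨⟨i, h1, h2⟩, h3⟩ | ⟨h1, h2⟩)
      · simp only at h1 h2 h3
        subst h1 h2 h3
        exact step_cons_left i e
      · simp only at h1 h2
        subst h1
        exact step_cons_right p e e' h2

/-! ### Strictly increasing sequences -/

/-- The lattice of strictly increasing sequences. -/
def inc (k n : ℕ) : Sublattice (Fin k → Fin n) where
  carrier := {s | StrictMono s}
  supClosed' := by
    intro s hs t ht i j hij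
    exact max_lt_max (hs hij) (ht hij)
  infClosed' := by
    intro s hs t ht i j hij
    exact min_lt_min (hs hij) (ht hij)

/-- One term goes up by one. -/
def IncStep {k n : ℕ} (s t : inc k n) : Prop :=
  ∃ i : Fin k, (t.1 i).val = (s.1 i).val + 1 ∧ ∀ j, j ≠ i → t.1 j = s.1 j

noncomputable instance (k n : ℕ) : Fintype (inc k n) := Fintype.ofFinite _

theorem inc_monotone {k n : ℕ} (f : inc k n → ℝ) (hf : ∀ s t, IncStep s t → f s ≤ f t) :
    Monotone f := by
  have key : ∀ N : ℕ, ∀ s t : inc k n, (∀ i, s.1 i ≤ t.1 i) →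
      (∑ i, ((t.1 i).val - (s.1 i).val)) = N → f s ≤ f t := by
    intro N
    induction N with
    | zero =>
      intro s t hst h0
      have : s = t := by
        apply Subtype.ext
        funext i
        have h1 := (Finset.sum_eq_zero_iff.1 h0) i (Finset.mem_univ i)
        have h2 : (s.1 i).val ≤ (t.1 i).val := hst i
        apply Fin.ext
        omega
      rw [this]
    | succ N ih =>
      intro s t hst hN
      have hex : ∃ i, s.1 i < t.1 i := by
        by_contra hcon
        push Not at hcon
        have : ∑ i, ((t.1 i).val - (s.1 i).val) = 0 := by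
          apply Finset.sum_eq_zero
          intro i _
          have : (t.1 i).val ≤ (s.1 i).val := hcon i
          omega
        omega
      obtain ⟨i, hi, himax⟩ : ∃ i, s.1 i < t.1 i ∧ ∀ j, i < j → s.1 j = t.1 j := by
        classical
        let T : Finset (Fin k) := Finset.univ.filter fun i => s.1 i < t.1 i
        have hT : T.Nonempty := by
          obtain ⟨i, hi⟩ := hex
          exact ⟨i, by simp [T, hi]⟩
        refine ⟨T.max' hT, ?_, ?_⟩
        · have := T.max'_mem hT
          simp only [T, Finset.mem_filter] at this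
          exact this.2
        · intro j hj
          by_contra hne
          have hlt : s.1 j < t.1 j := lt_of_le_of_ne (hst j) hne
          have : j ≤ T.max' hT := T.le_max' j (by simp [T, hlt])
          exact absurd hj (not_lt.2 this)
      have hival : (s.1 i).val < (t.1 i).val := hi
      have hlt : (s.1 i).val + 1 < n := lt_of_le_of_lt hival (t.1 i).isLt
      let u : Fin k → Fin n := Function.update s.1 i ⟨(s.1 i).val + 1, hlt⟩
      have hui : (u i).val = (s.1 i).val + 1 := by simp [u]
      have hune : ∀ j, j ≠ i → u j = s.1 j := fun j hj => by simp [u, hj]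
      have humono : StrictMono u := by
        intro a b hab
        have hs : StrictMono s.1 := s.2
        have ht : StrictMono t.1 := t.2
        rw [Fin.lt_def]
        by_cases ha : a = i
        · subst ha
          have hb : b ≠ a := ne_of_gt hab
          rw [hui, hune b hb, himax b hab]
          have := ht hab
          rw [Fin.lt_def] at this
          omega
        · by_cases hb : b = i
          · subst hb
            rw [hui, hune a ha]
            have := hs hab
            rw [Fin.lt_def] at this
            omega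
          · rw [hune a ha, hune b hb]
            exact hs hab
      have hut : ∀ j, u j ≤ t.1 j := by
        intro j
        by_cases hj : j = i
        · subst hj
          rw [Fin.le_def, hui]
          omega
        · rw [hune j hj]
          exact hst j
      have h1 : f s ≤ f ⟨u, humono⟩ := hf _ _ ⟨i, hui, hune⟩
      refine h1.trans (ih ⟨u, humono⟩ t hut ?_)
      have h2 : ∑ j, ((t.1 j).val - (s.1 j).val) =
          ∑ j, (((t.1 j).val - (u j).val) + if j = i then 1 else 0) := by
        refine Finset.sum_congr rfl fun j _ => ?_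
        by_cases hj : j = i
        · subst hj
          rw [hui, if_pos rfl]
          omega
        · rw [hune j hj, if_neg hj]
          rfl
      rw [Finset.sum_add_distrib, Finset.sum_ite_eq'] at h2
      simp only [Finset.mem_univ, if_true] at h2
      change ∑ j, ((t.1 j).val - (u j).val) = N
      omega
  intro s t hst
  exact key _ s t hst rfl

/-- The weight of a sequence: a factor `q` for every term at least `T`. -/
noncomputable def incWeight {k n : ℕ} (T : ℕ) (q : ℝ) (s : inc k n) : ℝ :=
  ∏ i, if T ≤ (s.1 i).val then q else 1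

theorem PA_inc (k n T : ℕ) {q : ℝ} (hq : 0 < q) : PA (incWeight (k := k) (n := n) T q) IncStep := by
  refine PA.ofLattice ?_ ?_ inc_monotone
  · intro s
    refine Finset.prod_nonneg fun i _ => ?_
    split_ifs
    · exact hq.le
    · exact zero_le_one
  · intro s t
    unfold incWeight
    rw [← Finset.prod_mul_distrib, ← Finset.prod_mul_distrib]
    apply le_of_eq
    refine Finset.prod_congr rfl fun i _ => ?_
    have h1 : (s ⊓ t).1 i = min (s.1 i) (t.1 i) := rfl
    have h2 : (s ⊔ t).1 i = max (s.1 i) (t.1 i) := rfl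
    rw [h1, h2]
    rcases le_total (s.1 i) (t.1 i) with h | h
    · rw [min_eq_left h, max_eq_right h]
    · rw [min_eq_right h, max_eq_left h, mul_comm]

/-! ### Putting permutations together -/

/-- The set of terms of a sequence. -/
def terms {k n : ℕ} (s : inc k n) : Finset (Fin n) := Finset.univ.image s.1

theorem card_terms {k n : ℕ} (s : inc k n) : #(terms s) = k := by
  have hs : StrictMono s.1 := s.2
  rw [terms, Finset.card_image_of_injective _ hs.injective, Finset.card_univ, Fintype.card_fin]

theorem card_terms_compl {k l : ℕ} (s : inc k (k + l)) : #(terms s)ᶜ = l := by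
  rw [Finset.card_compl, card_terms, Fintype.card_fin]
  omega

/-- The permutation which increases on the first `k` positions and on the others. -/
def base {k l : ℕ} (s : inc k (k + l)) : Fin k ⊕ Fin l ≃ Fin (k + l) :=
  finSumEquivOfFinset (card_terms s) (card_terms_compl s)

theorem base_inl {k l : ℕ} (s : inc k (k + l)) (i : Fin k) : base s (Sum.inl i) = s.1 i := by
  rw [base, finSumEquivOfFinset_inl]
  have hs : StrictMono s.1 := s.2
  have := Finset.orderEmbOfFin_unique (card_terms s) (f := s.1)
    (fun x => by simp [terms]) hs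
  rw [this]

theorem base_inr_mem {k l : ℕ} (s : inc k (k + l)) (i : Fin l) :
    base s (Sum.inr i) ∉ terms s := by
  rw [base, finSumEquivOfFinset_inr]
  have := Finset.orderEmbOfFin_mem _ (card_terms_compl s) i
  rwa [Finset.mem_compl] at this

theorem base_inr_mono {k l : ℕ} (s : inc k (k + l)) :
    StrictMono fun i : Fin l => base s (Sum.inr i) := by
  intro i j hij
  simp only [base, finSumEquivOfFinset_inr]
  exact (Finset.orderEmbOfFin _ (card_terms_compl s)).strictMono hij

theorem base_inr_unique {k l : ℕ} (s : inc k (k + l)) (f : Fin l → Fin (k + l))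
    (hf : ∀ i, f i ∉ terms s) (hmono : StrictMono f) (i : Fin l) :
    base s (Sum.inr i) = f i := by
  rw [base, finSumEquivOfFinset_inr]
  have := Finset.orderEmbOfFin_unique (card_terms_compl s) (f := f)
    (fun x => by rw [Finset.mem_compl]; exact hf x) hmono
  rw [this]

/-- The permutation with given set of first entries and given patterns. -/
def glue {k l : ℕ} (s : inc k (k + l)) (σ : Perm (Fin k)) (τ : Perm (Fin l)) :
    Perm (Fin (k + l)) :=
  finSumFinEquiv.symm.trans ((sumCongr σ τ).trans (base s))

theorem glue_left {k l : ℕ} (s : inc k (k + l)) (σ : Perm (Fin k)) (τ : Perm (Fin l))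
    (i : Fin k) : glue s σ τ (Fin.castAdd l i) = s.1 (σ i) := by
  simp [glue, base_inl]

theorem glue_right {k l : ℕ} (s : inc k (k + l)) (σ : Perm (Fin k)) (τ : Perm (Fin l))
    (i : Fin l) : glue s σ τ (Fin.natAdd k i) = base s (Sum.inr (τ i)) := by
  simp [glue]

theorem mem_terms {k n : ℕ} (s : inc k n) (i : Fin k) : s.1 i ∈ terms s := by
  simp [terms]

theorem glue_bij (k l : ℕ) : Function.Bijective
    (fun z : inc k (k + l) × (Perm (Fin k) × Perm (Fin l)) => glue z.1 z.2.1 z.2.2) := by
  constructor
  · rintro ⟨s, σ, τ⟩ ⟨s', σ', τ'⟩ h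
    simp only at h
    have hs : s = s' := by
      have h1 : Set.range s.1 = Set.range s'.1 := by
        ext v
        constructor
        · rintro ⟨i, rfl⟩
          have := congrArg (fun a : Perm (Fin (k + l)) => a (Fin.castAdd l (σ.symm i))) h
          simp only [glue_left, apply_symm_apply] at this
          exact ⟨_, this.symm⟩
        · rintro ⟨i, rfl⟩
          have := congrArg (fun a : Perm (Fin (k + l)) => a (Fin.castAdd l (σ'.symm i))) h
          simp only [glue_left, apply_symm_apply] at this
          exact ⟨_, this⟩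
      have hs : StrictMono s.1 := s.2
      have hs' : StrictMono s'.1 := s'.2
      exact Subtype.ext ((hs.range_inj hs').1 h1)
    subst hs
    have hσ : σ = σ' := by
      ext1 i
      have := congrArg (fun a : Perm (Fin (k + l)) => a (Fin.castAdd l i)) h
      simp only [glue_left] at this
      have hs : StrictMono s.1 := s.2
      exact hs.injective this
    have hτ : τ = τ' := by
      ext1 i
      have := congrArg (fun a : Perm (Fin (k + l)) => a (Fin.natAdd k i)) h
      simp only [glue_right] at this
      exact Sum.inr_injective ((base s).injective this)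
    rw [hσ, hτ]
  · intro a
    let S : Finset (Fin (k + l)) := Finset.univ.image fun i : Fin k => a (Fin.castAdd l i)
    have hS : #S = k := by
      have hinj : Function.Injective fun i : Fin k => a (Fin.castAdd l i) :=
        a.injective.comp (Fin.castAdd_injective k l)
      rw [Finset.card_image_of_injective _ hinj, Finset.card_univ, Fintype.card_fin]
    let s : inc k (k + l) := ⟨S.orderEmbOfFin hS, (S.orderEmbOfFin hS).strictMono⟩
    have hterms : terms s = S := by
      have h1 : terms s ⊆ S := by
        intro v hv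
        simp only [terms, Finset.mem_image, Finset.mem_univ, true_and] at hv
        obtain ⟨i, rfl⟩ := hv
        exact Finset.orderEmbOfFin_mem S hS i
      exact Finset.eq_of_subset_of_card_le h1 (by rw [hS, card_terms])
    let π : Perm (Fin k ⊕ Fin l) := finSumFinEquiv.trans (a.trans (base s).symm)
    have hπ : Set.MapsTo π (Set.range Sum.inl) (Set.range Sum.inl) := by
      rintro _ ⟨i, rfl⟩
      have h1 : a (Fin.castAdd l i) ∈ terms s := by
        rw [hterms]
        exact Finset.mem_image_of_mem _ (Finset.mem_univ i)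
      simp only [terms, Finset.mem_image, Finset.mem_univ, true_and] at h1
      obtain ⟨j, hj⟩ := h1
      refine ⟨j, ?_⟩
      simp only [π, trans_apply, finSumFinEquiv_apply_left]
      rw [Equiv.eq_symm_apply, base_inl, hj]
    obtain ⟨⟨σ, τ⟩, h⟩ := Perm.mem_sumCongrHom_range_of_perm_mapsTo_inl hπ
    refine ⟨⟨s, σ, τ⟩, ?_⟩
    simp only
    have h' : sumCongr σ τ = π := h
    unfold glue
    rw [h']
    ext1 x
    simp [π]

theorem finSum_symm_lt {k l : ℕ} (i : Fin k) (j : Fin l) : Fin.castAdd l i < Fin.natAdd k j := by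
  rw [Fin.lt_def]
  simp
  omega

theorem step_glue_base {k l : ℕ} (s s' : inc k (k + l)) (σ : Perm (Fin k)) (τ : Perm (Fin l))
    (h : IncStep s s') : Step (glue s σ τ) (glue s' σ τ) := by
  obtain ⟨i, hi, hne⟩ := h
  have hs : StrictMono s.1 := s.2
  have hs' : StrictMono s'.1 := s'.2
  have hnot : s'.1 i ∉ terms s := by
    intro hmem
    simp only [terms, Finset.mem_image, Finset.mem_univ, true_and] at hmem
    obtain ⟨j, hj⟩ := hmem
    by_cases hji : j = i
    · subst hji
      rw [hj] at hi
      omega
    · rw [← hne j hji] at hj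
      exact hji (hs'.injective hj)
  have hnot' : s.1 i ∉ terms s' := by
    intro hmem
    simp only [terms, Finset.mem_image, Finset.mem_univ, true_and] at hmem
    obtain ⟨j, hj⟩ := hmem
    by_cases hji : j = i
    · subst hji
      rw [hj] at hi
      omega
    · rw [hne j hji] at hj
      exact hji (hs.injective hj)
  -- the position of the new entry
  obtain ⟨j, hj⟩ : ∃ j : Fin l, base s (Sum.inr j) = s'.1 i := by
    obtain ⟨z, hz⟩ := (base s).surjective (s'.1 i)
    rcases z with z | z
    · rw [base_inl] at hz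
      exact absurd (hz ▸ mem_terms s z) hnot
    · exact ⟨z, hz⟩
  refine ⟨Fin.castAdd l (σ.symm i), Fin.natAdd k (τ.symm j), finSum_symm_lt _ _, ?_, ?_⟩
  · rw [glue_left, glue_right, apply_symm_apply, apply_symm_apply, hj, Fin.lt_def]
    omega
  · rw [glue_left, glue_right, apply_symm_apply, apply_symm_apply, hj]
    have hinr : ∀ x : Fin l, base s' (Sum.inr x) =
        swap (s.1 i) (s'.1 i) (base s (Sum.inr x)) := by
      intro x
      refine base_inr_unique s' (fun x => swap (s.1 i) (s'.1 i) (base s (Sum.inr x))) ?_ ?_ x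
      · intro x hmem
        have h1 : base s (Sum.inr x) ≠ s.1 i := fun h =>
          base_inr_mem s x (h ▸ mem_terms s i)
        by_cases h2 : base s (Sum.inr x) = s'.1 i
        · rw [h2, swap_apply_right] at hmem
          exact hnot' hmem
        · rw [swap_apply_of_ne_of_ne h1 h2] at hmem
          simp only [terms, Finset.mem_image, Finset.mem_univ, true_and] at hmem
          obtain ⟨y, hy⟩ := hmem
          by_cases hyi : y = i
          · subst hyi
            exact h2 hy.symm
          · rw [hne y hyi] at hy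
            exact base_inr_mem s x (hy ▸ mem_terms s y)
      · intro x y hxy
        have hlt : base s (Sum.inr x) < base s (Sum.inr y) := base_inr_mono s hxy
        change swap (s.1 i) (s'.1 i) (base s (Sum.inr x)) <
          swap (s.1 i) (s'.1 i) (base s (Sum.inr y))
        have hx1 : base s (Sum.inr x) ≠ s.1 i := fun h =>
          base_inr_mem s x (h ▸ mem_terms s i)
        have hy1 : base s (Sum.inr y) ≠ s.1 i := fun h =>
          base_inr_mem s y (h ▸ mem_terms s i)
        by_cases hx2 : base s (Sum.inr x) = s'.1 i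
        · rw [hx2, swap_apply_right]
          rw [hx2] at hlt
          rw [swap_apply_of_ne_of_ne hy1 (ne_of_gt hlt)]
          rw [Fin.lt_def] at hlt ⊢
          omega
        · rw [swap_apply_of_ne_of_ne hx1 hx2]
          by_cases hy2 : base s (Sum.inr y) = s'.1 i
          · rw [hy2, swap_apply_right]
            rw [hy2] at hlt
            rw [Ne, Fin.ext_iff] at hx1
            rw [Fin.lt_def] at hlt ⊢
            omega
          · rw [swap_apply_of_ne_of_ne hy1 hy2]
            exact hlt
    ext1 x
    rw [Perm.mul_apply]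
    refine Fin.addCases (fun x => ?_) (fun x => ?_) x
    · rw [glue_left, glue_left]
      by_cases hx : σ x = i
      · rw [hx, swap_apply_left]
      · rw [hne _ hx, swap_apply_of_ne_of_ne]
        · exact fun h => hx (hs.injective h)
        · intro h
          rw [← hne _ hx] at h
          exact hx (hs'.injective h)
    · rw [glue_right, glue_right, hinr]

theorem step_glue_left {k l : ℕ} (s : inc k (k + l)) (σ σ' : Perm (Fin k)) (τ : Perm (Fin l))
    (h : Step σ σ') : Step (glue s σ τ) (glue s σ' τ) := by
  obtain ⟨p, q, hpq, hlt, rfl⟩ := h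
  have hs : StrictMono s.1 := s.2
  refine ⟨Fin.castAdd l p, Fin.castAdd l q, hpq, ?_, ?_⟩
  · rw [glue_left, glue_left]
    exact hs hlt
  · ext1 x
    rw [Perm.mul_apply, glue_left, glue_left]
    refine Fin.addCases (fun x => ?_) (fun x => ?_) x
    · rw [glue_left, glue_left, Perm.mul_apply]
      exact (hs.injective.swap_apply _ _ _).symm
    · rw [glue_right, glue_right, swap_apply_of_ne_of_ne]
      · exact fun h => base_inr_mem s _ (h ▸ mem_terms s _)
      · exact fun h => base_inr_mem s _ (h ▸ mem_terms s _)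

theorem step_glue_right {k l : ℕ} (s : inc k (k + l)) (σ : Perm (Fin k)) (τ τ' : Perm (Fin l))
    (h : Step τ τ') : Step (glue s σ τ) (glue s σ τ') := by
  obtain ⟨p, q, hpq, hlt, rfl⟩ := h
  have hs : StrictMono s.1 := s.2
  refine ⟨Fin.natAdd k p, Fin.natAdd k q, ?_, ?_, ?_⟩
  · rw [Fin.lt_def] at hpq ⊢
    simpa using hpq
  · rw [glue_right, glue_right]
    exact base_inr_mono s hlt
  · ext1 x
    rw [Perm.mul_apply, glue_right, glue_right]
    refine Fin.addCases (fun x => ?_) (fun x => ?_) x
    · rw [glue_left, glue_left, swap_apply_of_ne_of_ne]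
      · exact fun h => base_inr_mem s _ (h ▸ mem_terms s _)
      · exact fun h => base_inr_mem s _ (h ▸ mem_terms s _)
    · rw [glue_right, glue_right, Perm.mul_apply]
      exact ((base_inr_mono s).injective.swap_apply _ _ _).symm

/-- The weight of a permutation, as a product over the first `k` positions. -/
noncomputable def weight {n : ℕ} (k T : ℕ) (q : ℝ) (a : Perm (Fin n)) : ℝ :=
  ∏ i : Fin n, if i.val < k ∧ T ≤ (a i).val then q else 1

theorem PA_weight (k l T : ℕ) {q : ℝ} (hq : 0 < q) :
    PA (weight (n := k + l) k T q) Step := by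
  have h0 : PA (fun z : inc k (k + l) × (Perm (Fin k) × Perm (Fin l)) =>
      incWeight T q z.1 * ((1 : ℝ) * 1)) _ :=
    PA.prod (ν := fun z : Perm (Fin k) × Perm (Fin l) => (1 : ℝ) * 1)
      (fun s => Finset.prod_nonneg fun i _ => by
        split_ifs
        · exact hq.le
        · exact zero_le_one) (fun _ => by norm_num) (PA_inc k (k + l) T hq)
      (PA.prod (fun _ => zero_le_one) (fun _ => zero_le_one) (PA_uniform k) (PA_uniform l))
  refine PA.map (Equiv.ofBijective _ (glue_bij k l)) ?_ ?_ h0
  · rintro ⟨s, σ, τ⟩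
    simp only [ofBijective_apply, mul_one]
    unfold weight incWeight
    rw [Fin.prod_univ_add]
    have h1 : ∏ i : Fin l, (if (Fin.natAdd k i).val < k ∧
        T ≤ (glue s σ τ (Fin.natAdd k i)).val then q else (1 : ℝ)) = 1 := by
      refine Finset.prod_eq_one fun i _ => ?_
      rw [if_neg]
      simp
    rw [h1, mul_one]
    rw [← Equiv.prod_comp σ (fun i => if T ≤ (s.1 i).val then q else (1 : ℝ))]
    refine Finset.prod_congr rfl fun i _ => ?_
    rw [glue_left]
    simp
  · rintro ⟨s, σ, τ⟩ ⟨s', σ', τ'⟩ (⟨h1, h2⟩ | ⟨h1, ⟨h2, h3⟩ | ⟨h2, h3⟩⟩)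
    · simp only [Prod.mk.injEq] at h1 h2
      obtain ⟨rfl, rfl⟩ := h2
      exact step_glue_base s s' σ τ h1
    · simp only at h1 h2 h3
      subst h1 h3
      exact step_glue_left s σ σ' τ h2
    · simp only at h1 h2 h3
      subst h1 h2
      exact step_glue_right s σ τ τ' h3

theorem weight_eq {n : ℕ} (q : ℝ) (a : Perm (Fin n)) : weight (n / 2) (n / 2) q a = q ^ gap a := by
  unfold weight gap
  rw [Finset.prod_ite]
  simp only [Finset.prod_const, one_pow, mul_one]
  congr 2
  ext i
  simp only [Finset.mem_filter, Finset.mem_univ, true_and]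
  omega

theorem PA_gap (n : ℕ) {q : ℝ} (hq : 0 < q) :
    PA (fun a : Perm (Fin n) => q ^ gap a) Step := by
  obtain ⟨l, hl⟩ := Nat.exists_eq_add_of_le (Nat.div_le_self n 2)
  have h1 : (fun a : Perm (Fin n) => q ^ gap a) = weight (n / 2) (n / 2) q := by
    funext a
    exact (weight_eq q a).symm
  rw [h1]
  generalize n / 2 = k at hl
  subst hl
  exact PA_weight k l k hq

/-- **Full answer to Q1.** -/
theorem result : ∀ n : ℕ, 1 ≤ n → ∀ q : ℝ, 0 < q → ∀ A B : Finset (Perm (Fin n)),
    StrongUpSet A → StrongUpSet B →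
      gapMeasure q A * gapMeasure q B ≤ gapMeasure q (A ∩ B) := by
  classical
  intro n _ q hq A B hA hB
  have hpa := PA_gap n hq (fun a => if a ∈ A then 0 else 1) (fun a => if a ∈ B then 0 else 1)
    (fun a => by split_ifs <;> norm_num) (fun a => by split_ifs <;> norm_num) ?_ ?_
  · set Z : ℝ := ∑ b : Perm (Fin n), q ^ gap b with hZ
    have hZpos : 0 < Z := Finset.sum_pos (fun b _ => pow_pos hq _) Finset.univ_nonempty
    set wA : ℝ := ∑ a ∈ A, q ^ gap a with hwA
    set wB : ℝ := ∑ a ∈ B, q ^ gap a with hwB
    set wAB : ℝ := ∑ a ∈ A ∩ B, q ^ gap a with hwAB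
    have eA : ∀ C : Finset (Perm (Fin n)), ∑ a : Perm (Fin n), q ^ gap a *
        (if a ∈ C then (0 : ℝ) else 1) = Z - ∑ a ∈ C, q ^ gap a := by
      intro C
      rw [hZ, ← Finset.sum_compl_add_sum C, ← Finset.sum_compl_add_sum C]
      have h1 : ∑ a ∈ C, q ^ gap a * (if a ∈ C then (0 : ℝ) else 1) = 0 :=
        Finset.sum_eq_zero fun a ha => by simp [ha]
      have h2 : ∑ a ∈ Cᶜ, q ^ gap a * (if a ∈ C then (0 : ℝ) else 1) =
          ∑ a ∈ Cᶜ, q ^ gap a :=
        Finset.sum_congr rfl fun a ha => by
          rw [Finset.mem_compl] at ha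
          simp [ha]
      rw [h1, h2]
      ring
    have eAB : ∑ a : Perm (Fin n), q ^ gap a *
        ((if a ∈ A then (0 : ℝ) else 1) * (if a ∈ B then (0 : ℝ) else 1)) =
        Z - ∑ a ∈ A ∪ B, q ^ gap a := by
      rw [← eA]
      refine Finset.sum_congr rfl fun a _ => ?_
      by_cases h1 : a ∈ A <;> by_cases h2 : a ∈ B <;> simp [h1, h2]
    have hunion : ∑ a ∈ A ∪ B, q ^ gap a = wA + wB - wAB := by
      rw [eq_sub_iff_add_eq]
      exact Finset.sum_union_inter
    rw [eA A, eA B, eAB, hunion] at hpa
    unfold gapMeasure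
    rw [← hZ, ← hwA, ← hwB, ← hwAB, div_mul_div_comm, div_le_div_iff₀ (mul_pos hZpos hZpos) hZpos]
    have : wA * wB ≤ wAB * Z := by nlinarith
    nlinarith
  · rintro a b ⟨p, r, hpr, hlt, rfl⟩
    by_cases hb : swap (a p) (a r) * a ∈ A
    · have ha : a ∈ A := by
        have := hA _ hb (a p) (a r) hlt ?_
        · rwa [← mul_assoc, swap_mul_self, one_mul] at this
        · rw [Perm.mul_def]
          simp only [symm_trans_apply, symm_swap, swap_apply_left, swap_apply_right,
            symm_apply_apply]
          exact hpr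
      simp [ha, hb]
    · simp only [hb, if_false]
      split_ifs <;> norm_num
  · rintro a b ⟨p, r, hpr, hlt, rfl⟩
    by_cases hb : swap (a p) (a r) * a ∈ B
    · have ha : a ∈ B := by
        have := hB _ hb (a p) (a r) hlt ?_
        · rwa [← mul_assoc, swap_mul_self, one_mul] at this
        · rw [Perm.mul_def]
          simp only [symm_trans_apply, symm_swap, swap_apply_left, swap_apply_right,
            symm_apply_apply]
          exact hpr
      simp [ha, hb]
    · simp only [hb, if_false]
      split_ifs <;> norm_num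

end Pool.Agent.Results.MP_8cb698_co.MiddleGapPA
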